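import Pool.Agent.W544.PG.Defs3

set_option autoImplicit false

/-!
# PG-SOI: a form killed by `so(n)` is invariant under `SO(n)`
-/

open Matrix Finset Module

namespace Pool.Agent.W216.PG.SOI

open Pool.Agent.W544.PG

noncomputable section

variable {n k : ℕ}

lemma pull_mul (A B : Matrix (Fin n) (Fin n) ℂ) (s : (Fin k → Fin n) → ℂ) :
    pull (A * B) s = pull B (pull A s) := by
  funext J
  unfold pull
  simp only [Finset.mul_sum]
  rw [Finset.sum_comm]
  refine Finset.sum_congr rfl fun L _ => ?_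
  simp only [← mul_assoc]
  rw [← Finset.sum_mul]
  congr 1
  simp only [Matrix.mul_apply]
  rw [Finset.prod_univ_sum]
  refine Finset.sum_bij (fun K _ => K) ?_ ?_ ?_ ?_
  · intro K _
    exact Finset.mem_univ _
  · intro K _ K' _ h
    exact h
  · intro K _
    exact ⟨K, by simp, rfl⟩
  · intro K _
    rw [← Finset.prod_mul_distrib]
    exact Finset.prod_congr rfl fun j _ => mul_comm _ _

lemma pull_one (s : (Fin k → Fin n) → ℂ) : pull (1 : Matrix (Fin n) (Fin n) ℂ) s = s := by
  funext J
  unfold pull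
  rw [Finset.sum_eq_single J]
  · rw [Finset.prod_eq_one, one_mul]
    intro j _
    rw [Matrix.one_apply_eq]
  · intro K _ hK
    obtain ⟨j, hj⟩ := Function.ne_iff.1 hK
    rw [Finset.prod_eq_zero (Finset.mem_univ j), zero_mul]
    exact Matrix.one_apply_ne hj
  · intro h
    exact absurd (Finset.mem_univ _) h

/-- the derivative of the pull-back, algebraically -/
lemma pull_act (R Z : Matrix (Fin n) (Fin n) ℂ) (s : (Fin k → Fin n) → ℂ)
    (J : Fin k → Fin n) :
    ∑ K : Fin k → Fin n, (∑ i, (∏ j ∈ univ.erase i, R (K j) (J j)) * (Z * R) (K i) (J i)) * s K =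
      pull R (act Z s) J := by
  unfold pull act
  simp only [Finset.mul_sum, Finset.sum_mul, Matrix.mul_apply]
  rw [Finset.sum_comm]
  rw [Finset.sum_comm (s := (univ : Finset (Fin k → Fin n))) (t := univ)
    (f := fun K i => ∑ l, (∏ j, R (K j) (J j)) * (Z l (K i) * s (Function.update K i l)))]
  refine Finset.sum_congr rfl fun i _ => ?_
  rw [← Finset.sum_product', ← Finset.sum_product']
  let E : ((Fin k → Fin n) × Fin n) ≃ ((Fin k → Fin n) × Fin n) :=
    { toFun := fun x => (Function.update x.1 i x.2, x.1 i)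
      invFun := fun x => (Function.update x.1 i x.2, x.1 i)
      left_inv := fun x => by simp
      right_inv := fun x => by simp }
  refine Finset.sum_bij' (fun x _ => E x) (fun x _ => E.symm x) ?_ ?_ ?_ ?_ ?_
  · intro x _; simp
  · intro x _; simp
  · intro x _; exact E.symm_apply_apply x
  · intro x _; exact E.apply_symm_apply x
  · rintro ⟨K, l⟩ _
    show (∏ j ∈ univ.erase i, R (K j) (J j)) * (Z (K i) l * R l (J i)) * s K =
      (∏ j, R (Function.update K i l j) (J j)) *
        (Z (K i) (Function.update K i l i) *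
          s (Function.update (Function.update K i l) i (K i)))
    rw [Function.update_self, Function.update_idem, Function.update_eq_self,
      ← Finset.mul_prod_erase univ _ (Finset.mem_univ i), Function.update_self]
    have e : ∏ j ∈ univ.erase i, R (Function.update K i l j) (J j) =
        ∏ j ∈ univ.erase i, R (K j) (J j) := by
      refine Finset.prod_congr rfl fun j hj => ?_
      rw [Function.update_of_ne (Finset.ne_of_mem_erase hj)]
    rw [e]
    ring

/-- rotation -/
def rot (Z : Matrix (Fin n) (Fin n) ℂ) (θ : ℂ) : Matrix (Fin n) (Fin n) ℂ :=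
  1 + Complex.sin θ • Z + (1 - Complex.cos θ) • (Z * Z)

lemma rot_zero (Z : Matrix (Fin n) (Fin n) ℂ) : rot Z 0 = 1 := by
  simp [rot]

lemma rot_add {Z : Matrix (Fin n) (Fin n) ℂ} (hZ : Z * Z * Z = -Z) (α β : ℂ) :
    rot Z (α + β) = rot Z α * rot Z β := by
  have h3 : Z * (Z * Z) = -Z := by rw [← mul_assoc, hZ]
  have h4 : Z * Z * (Z * Z) = -(Z * Z) := by rw [← mul_assoc, hZ, neg_mul]
  unfold rot
  rw [Complex.sin_add, Complex.cos_add]
  simp only [add_mul, mul_add, one_mul, mul_one, smul_mul_assoc, mul_smul_comm, smul_smul, hZ, h3,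
    h4, smul_neg]
  module

lemma rot_t {Z : Matrix (Fin n) (Fin n) ℂ} (hZ : Zᵀ = -Z) (θ : ℂ) :
    (rot Z θ)ᵀ = rot Z (-θ) := by
  unfold rot
  rw [transpose_add, transpose_add, transpose_smul, transpose_smul, transpose_mul, hZ,
    transpose_one, Complex.sin_neg, Complex.cos_neg]
  simp

lemma rot_orth {Z : Matrix (Fin n) (Fin n) ℂ} (hZ : Zᵀ = -Z) (hZ3 : Z * Z * Z = -Z) (θ : ℂ) :
    (rot Z θ)ᵀ * rot Z θ = 1 := by
  rw [rot_t hZ, ← rot_add hZ3, neg_add_cancel, rot_zero]

lemma rot_det {Z : Matrix (Fin n) (Fin n) ℂ} (hZ : Zᵀ = -Z) (hZ3 : Z * Z * Z = -Z) (θ : ℂ) :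
    (rot Z θ).det = 1 := by
  have h1 : rot Z θ = rot Z (θ / 2) * rot Z (θ / 2) := by
    rw [← rot_add hZ3, add_halves]
  have h2 := congrArg Matrix.det (rot_orth hZ hZ3 (θ / 2))
  rw [Matrix.det_mul, Matrix.det_transpose, Matrix.det_one] at h2
  rw [h1, Matrix.det_mul, h2]

lemma rot_entry_deriv {Z : Matrix (Fin n) (Fin n) ℂ} (hZ3 : Z * Z * Z = -Z) (θ : ℂ)
    (a b : Fin n) : HasDerivAt (fun θ => rot Z θ a b) ((Z * rot Z θ) a b) θ := by
  have e1 : (fun θ => rot Z θ a b) = fun θ => (1 : Matrix (Fin n) (Fin n) ℂ) a b +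
      Complex.sin θ * Z a b + (1 - Complex.cos θ) * (Z * Z) a b := by
    funext θ
    simp [rot]
  have e2 : Z * rot Z θ = Complex.cos θ • Z + Complex.sin θ • (Z * Z) := by
    have h3 : Z * (Z * Z) = -Z := by rw [← mul_assoc, hZ3]
    unfold rot
    simp only [mul_add, mul_one, mul_smul_comm, h3, smul_neg]
    module
  rw [e1, e2]
  have h1 := ((Complex.hasDerivAt_sin θ).mul_const (Z a b)).const_add
    ((1 : Matrix (Fin n) (Fin n) ℂ) a b)
  have h2 := ((Complex.hasDerivAt_cos θ).const_sub 1).mul_const ((Z * Z) a b)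
  refine (h1.add h2).congr_deriv ?_
  simp

/-- rotations fix the form -/
lemma rot_fix {s : (Fin k → Fin n) → ℂ}
    (hs : ∀ Z : Matrix (Fin n) (Fin n) ℂ, Zᵀ = -Z → act Z s = 0)
    {Z : Matrix (Fin n) (Fin n) ℂ} (hZ : Zᵀ = -Z) (hZ3 : Z * Z * Z = -Z) (θ : ℂ) :
    pull (rot Z θ) s = s := by
  funext J
  have hd : ∀ θ, HasDerivAt (fun θ => pull (rot Z θ) s J) 0 θ := by
    intro θ
    have h1 : HasDerivAt (fun θ => ∑ K : Fin k → Fin n, (∏ j, rot Z θ (K j) (J j)) * s K)
        (∑ K : Fin k → Fin n, (∑ i, (∏ j ∈ univ.erase i, rot Z θ (K j) (J j)) *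
          (Z * rot Z θ) (K i) (J i)) * s K) θ := by
      refine HasDerivAt.fun_sum fun K _ => ?_
      refine HasDerivAt.mul_const ?_ _
      have := HasDerivAt.fun_finsetProd (u := (univ : Finset (Fin k))) (x := θ)
        (f := fun j θ => rot Z θ (K j) (J j)) (f' := fun j => (Z * rot Z θ) (K j) (J j))
        (fun j _ => rot_entry_deriv hZ3 θ (K j) (J j))
      simpa only [smul_eq_mul] using this
    rw [pull_act, hs Z hZ] at h1
    refine h1.congr_deriv ?_
    simp [pull]
  have h2 := is_const_of_deriv_eq_zero (f := fun θ => pull (rot Z θ) s J)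
    (fun θ => (hd θ).differentiableAt) (fun θ => (hd θ).deriv) θ 0
  rw [h2, rot_zero, pull_one]

/-- an angle with given cosine and sine -/
lemma exists_angle {c d : ℂ} (h : c ^ 2 + d ^ 2 = 1) : ∃ θ, Complex.cos θ = c ∧
    Complex.sin θ = d := by
  have h1 : (c + d * Complex.I) * (c - d * Complex.I) = 1 := by
    have : (c + d * Complex.I) * (c - d * Complex.I) = c ^ 2 - d ^ 2 * Complex.I ^ 2 := by ring
    rw [this, Complex.I_sq]
    linear_combination h
  have h0 : c + d * Complex.I ≠ 0 := left_ne_zero_of_mul_eq_one h1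
  have h2 : c - d * Complex.I = (c + d * Complex.I)⁻¹ := eq_inv_of_mul_eq_one_right h1
  obtain ⟨θ, hθ⟩ : ∃ θ, θ * Complex.I = Complex.log (c + d * Complex.I) :=
    ⟨-Complex.I * Complex.log (c + d * Complex.I), by
      linear_combination (-Complex.log (c + d * Complex.I)) * Complex.I_sq⟩
  refine ⟨θ, ?_, ?_⟩
  · rw [Complex.cos, neg_mul, hθ, Complex.exp_neg, Complex.exp_log h0, ← h2]
    ring
  · rw [Complex.sin, neg_mul, hθ, Complex.exp_neg, Complex.exp_log h0, ← h2]
    linear_combination (-d) * Complex.I_sq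

/-- the elements of `SO(n)` which fix the form -/
def Good (s : (Fin k → Fin n) → ℂ) (g : Matrix (Fin n) (Fin n) ℂ) : Prop :=
  gᵀ * g = 1 ∧ g.det = 1 ∧ pull g s = s

lemma Good.mul {s : (Fin k → Fin n) → ℂ} {g h : Matrix (Fin n) (Fin n) ℂ} (hg : Good s g)
    (hh : Good s h) : Good s (g * h) := by
  refine ⟨?_, ?_, ?_⟩
  · rw [transpose_mul, mul_assoc, ← mul_assoc gᵀ, hg.1, one_mul, hh.1]
  · rw [Matrix.det_mul, hg.2.1, hh.2.1, one_mul]
  · rw [pull_mul, hg.2.2, hh.2.2]

/-- a rotation which maps `u` to `v` -/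
lemma move {s : (Fin k → Fin n) → ℂ}
    (hs : ∀ Z : Matrix (Fin n) (Fin n) ℂ, Zᵀ = -Z → act Z s = 0) {u v : Fin n → ℂ}
    (hu : u ⬝ᵥ u = 1) (hv : v ⬝ᵥ v = 1) (huv : (u ⬝ᵥ v) ^ 2 ≠ 1) :
    ∃ g, Good s g ∧ g *ᵥ u = v ∧ ∀ x, u ⬝ᵥ x = 0 → v ⬝ᵥ x = 0 → g *ᵥ x = x := by
  obtain ⟨c, hc⟩ : ∃ c, c = u ⬝ᵥ v := ⟨_, rfl⟩
  obtain ⟨d, hd⟩ := IsAlgClosed.exists_pow_nat_eq (1 - c ^ 2) (n := 2) (by norm_num)
  have hd0 : d ≠ 0 := by
    rintro rfl
    apply huv
    rw [← hc]
    linear_combination hd
  obtain ⟨θ, hcos, hsin⟩ := exists_angle (c := c) (d := d) (by rw [hd]; ring)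
  obtain ⟨b, hb⟩ : ∃ b, b = d⁻¹ • (v - c • u) := ⟨_, rfl⟩
  have hub : u ⬝ᵥ b = 0 := by
    rw [hb, dotProduct_smul, dotProduct_sub, dotProduct_smul, hu, ← hc, smul_eq_mul, smul_eq_mul]
    ring
  have hbb : b ⬝ᵥ b = 1 := by
    have h1 : (v - c • u) ⬝ᵥ (v - c • u) = d ^ 2 := by
      rw [sub_dotProduct, dotProduct_sub, dotProduct_sub, dotProduct_smul, dotProduct_smul,
        smul_dotProduct, smul_dotProduct, hu, hv, dotProduct_comm v u, ← hc, hd]
      simp only [smul_eq_mul]
      ring
    rw [hb, dotProduct_smul, smul_dotProduct, h1, smul_eq_mul, smul_eq_mul]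
    field_simp
  have hbu : b ⬝ᵥ u = 0 := by rw [dotProduct_comm, hub]
  have hvb : v = c • u + d • b := by
    rw [hb, smul_smul, mul_inv_cancel₀ hd0, one_smul]
    abel
  obtain ⟨Z, hZdef⟩ : ∃ Z, Z = vecMulVec b u - vecMulVec u b := ⟨_, rfl⟩
  have hZ : Zᵀ = -Z := by
    rw [hZdef, transpose_sub, transpose_vecMulVec, transpose_vecMulVec, neg_sub]
  have hZx : ∀ x, Z *ᵥ x = (u ⬝ᵥ x) • b - (b ⬝ᵥ x) • u := by
    intro x
    rw [hZdef, Matrix.sub_mulVec, vecMulVec_mulVec, vecMulVec_mulVec, op_smul_eq_smul,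
      op_smul_eq_smul]
  have hZu : Z *ᵥ u = b := by rw [hZx, hu, hbu, one_smul, zero_smul, sub_zero]
  have hZb : Z *ᵥ b = -u := by rw [hZx, hub, hbb, one_smul, zero_smul, zero_sub]
  have hZ3 : Z * Z * Z = -Z := by
    apply Matrix.toLin'.injective
    apply LinearMap.ext
    intro x
    rw [Matrix.toLin'_apply, Matrix.toLin'_apply, ← Matrix.mulVec_mulVec, ← Matrix.mulVec_mulVec,
      Matrix.neg_mulVec, hZx x, Matrix.mulVec_sub, Matrix.mulVec_smul, Matrix.mulVec_smul, hZu,
      hZb, Matrix.mulVec_sub, Matrix.mulVec_smul, Matrix.mulVec_smul, Matrix.mulVec_neg, hZu,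
      hZb]
    module
  refine ⟨rot Z θ, ⟨rot_orth hZ hZ3 θ, rot_det hZ hZ3 θ, rot_fix hs hZ hZ3 θ⟩, ?_, ?_⟩
  · unfold rot
    rw [Matrix.add_mulVec, Matrix.add_mulVec, Matrix.one_mulVec, Matrix.smul_mulVec,
      Matrix.smul_mulVec, ← Matrix.mulVec_mulVec, hZu, hZb, hcos, hsin]
    rw [hvb]
    module
  · intro x hux hvx
    have hbx : b ⬝ᵥ x = 0 := by
      rw [hb, smul_dotProduct, sub_dotProduct, smul_dotProduct, hux, hvx]
      simp
    have hZx0 : Z *ᵥ x = 0 := by rw [hZx, hux, hbx, zero_smul, zero_smul, sub_zero]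
    unfold rot
    rw [Matrix.add_mulVec, Matrix.add_mulVec, Matrix.one_mulVec, Matrix.smul_mulVec,
      Matrix.smul_mulVec, ← Matrix.mulVec_mulVec, hZx0, Matrix.mulVec_zero, smul_zero, smul_zero,
      add_zero, add_zero]

/-- the standard basis -/
def e (n : ℕ) (i : Fin n) : Fin n → ℂ := Pi.single i 1

lemma e_dot (i : Fin n) (x : Fin n → ℂ) : e n i ⬝ᵥ x = x i := by
  simp [e]

lemma e_dot_e (i j : Fin n) : e n i ⬝ᵥ e n j = if i = j then 1 else 0 := by
  rw [e_dot, e, Pi.single_apply]

lemma orth_dot {R : Matrix (Fin n) (Fin n) ℂ} (hR : Rᵀ * R = 1) (x y : Fin n → ℂ) :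
    (R *ᵥ x) ⬝ᵥ (R *ᵥ y) = x ⬝ᵥ y := by
  rw [Matrix.dotProduct_mulVec, ← Matrix.mulVec_transpose, Matrix.mulVec_mulVec, hR,
    Matrix.one_mulVec]

lemma ext_e {A B : Matrix (Fin n) (Fin n) ℂ} (h : ∀ i, A *ᵥ e n i = B *ᵥ e n i) : A = B := by
  ext a b
  have := congrFun (h b) a
  simpa [e] using this

theorem claim {s : (Fin k → Fin n) → ℂ}
    (hs : ∀ Z : Matrix (Fin n) (Fin n) ℂ, Zᵀ = -Z → act Z s = 0) (m : ℕ) (hm : 1 ≤ m) :
    ∀ R : Matrix (Fin n) (Fin n) ℂ, Rᵀ * R = 1 → R.det = 1 →
      (∀ i : Fin n, m ≤ (i : ℕ) → R *ᵥ e n i = e n i) → pull R s = s := by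
  induction m, hm using Nat.le_induction with
  | base =>
    intro R hR hdet hfix
    by_cases hn : 0 < n
    · set o : Fin n := ⟨0, hn⟩ with ho
      have hpos : ∀ i : Fin n, i ≠ o → 1 ≤ (i : ℕ) := by
        intro i hi
        by_contra h
        apply hi
        apply Fin.ext
        show (i : ℕ) = 0
        omega
      set v := R *ᵥ e n o with hv
      have hv0 : ∀ i : Fin n, i ≠ o → v i = 0 := by
        intro i hi
        have h1 := orth_dot hR (e n i) (e n o)
        rw [hfix i (hpos i hi), e_dot_e, if_neg hi, ← hv, e_dot] at h1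
        exact h1
      have hRd : R = Matrix.diagonal (fun i => if i = o then v o else 1) := by
        apply ext_e
        intro i
        funext j
        have e1 : (Matrix.diagonal (fun i => if i = o then v o else 1) *ᵥ e n i) j =
            (if j = o then v o else 1) * e n i j := by
          rw [Matrix.mulVec_diagonal]
        rw [e1]
        by_cases hi : i = o
        · subst hi
          rw [← hv]
          by_cases hj : j = o
          · subst hj
            rw [if_pos rfl]
            simp [e]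
          · rw [hv0 j hj, if_neg hj, one_mul]
            simp [e, hj]
        · rw [hfix i (hpos i hi)]
          by_cases hj : j = o
          · subst hj
            rw [if_pos rfl]
            simp [e, Ne.symm hi]
          · rw [if_neg hj, one_mul]
      have hvo : v o = 1 := by
        rw [hRd, Matrix.det_diagonal, Finset.prod_ite_eq' univ o] at hdet
        simpa using hdet
      have hR1 : R = 1 := by
        rw [hRd, hvo]
        simp
      rw [hR1, pull_one]
    · have hR1 : R = 1 := by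
        ext i
        exact absurd i.pos hn
      rw [hR1, pull_one]
  | succ m hm ih =>
    intro R hR hdet hfix
    by_cases hmn : m < n
    swap
    · exact ih R hR hdet fun i hi => absurd (lt_of_le_of_lt hi i.2) hmn
    set a : Fin n := ⟨m, hmn⟩ with ha
    set v := R *ᵥ e n a with hv
    have hvv : v ⬝ᵥ v = 1 := by
      rw [hv, orth_dot hR, e_dot_e, if_pos rfl]
    have haa : e n a ⬝ᵥ e n a = 1 := by rw [e_dot_e, if_pos rfl]
    have hvi : ∀ i : Fin n, m + 1 ≤ (i : ℕ) → v ⬝ᵥ e n i = 0 := by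
      intro i hi
      have h1 := orth_dot hR (e n a) (e n i)
      rw [hfix i hi, e_dot_e, if_neg] at h1
      · exact h1
      · intro h
        have := congrArg Fin.val h
        simp only [ha] at this
        omega
    -- it is enough to map `v` to `e a`
    have hfin : ∀ g, Good s g → g *ᵥ v = e n a →
        (∀ i : Fin n, m + 1 ≤ (i : ℕ) → g *ᵥ e n i = e n i) → pull R s = s := by
      intro g hg hgv hgi
      have h1 := ih (g * R) (by
          rw [transpose_mul, mul_assoc, ← mul_assoc gᵀ, hg.1, one_mul, hR])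
        (by rw [Matrix.det_mul, hg.2.1, hdet, one_mul]) (by
          intro i hi
          rw [← Matrix.mulVec_mulVec]
          rcases Nat.eq_or_lt_of_le hi with h | h
          · have hia : i = a := Fin.ext h.symm
            rw [hia, ← hv, hgv]
          · rw [hfix i h, hgi i h])
      rw [pull_mul, hg.2.2] at h1
      exact h1
    by_cases hA : (v ⬝ᵥ e n a) ^ 2 ≠ 1
    · obtain ⟨g, hg, hgv, hgx⟩ := move hs hvv haa hA
      refine hfin g hg hgv fun i hi => hgx _ (hvi i hi) ?_
      rw [e_dot_e, if_neg]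
      intro h
      have := congrArg Fin.val h
      simp only [ha] at this
      omega
    · push Not at hA
      rw [dotProduct_comm, e_dot] at hA
      -- a basis vector which is not proportional
      obtain ⟨j, hjm, hj⟩ : ∃ j : Fin n, (j : ℕ) < m ∧ v j ^ 2 ≠ 1 := by
        by_contra hcon
        push Not at hcon
        have h1 : ∑ i : Fin n, v i ^ 2 = 1 := by
          rw [← hvv]
          simp only [dotProduct, sq]
        have h2 : ∀ i : Fin n, v i ^ 2 = if (i : ℕ) < m + 1 then 1 else 0 := by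
          intro i
          by_cases hi : (i : ℕ) < m + 1
          · rw [if_pos hi]
            rcases Nat.lt_succ_iff_lt_or_eq.1 hi with h | h
            · exact hcon i h
            · have : i = a := Fin.ext h
              rw [this]
              exact hA
          · rw [if_neg hi]
            have h3 := hvi i (not_lt.1 hi)
            rw [dotProduct_comm, e_dot] at h3
            rw [h3]
            norm_num
        simp only [h2] at h1
        rw [Finset.sum_boole] at h1
        have h4 : (univ.filter fun i : Fin n => (i : ℕ) < m + 1).card = 1 := by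
          exact_mod_cast h1
        obtain ⟨x, hx⟩ := Finset.card_eq_one.1 h4
        have hz : (⟨0, by omega⟩ : Fin n) ∈ univ.filter fun i : Fin n => (i : ℕ) < m + 1 := by
          rw [Finset.mem_filter]
          exact ⟨Finset.mem_univ _, by show 0 < m + 1; omega⟩
        have hy : a ∈ univ.filter fun i : Fin n => (i : ℕ) < m + 1 := by
          rw [Finset.mem_filter]
          exact ⟨Finset.mem_univ _, by show m < m + 1; omega⟩
        rw [hx, Finset.mem_singleton] at hz hy
        have := congrArg Fin.val (hz.trans hy.symm)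
        simp only [ha] at this
        omega
      have hjj : e n j ⬝ᵥ e n j = 1 := by rw [e_dot_e, if_pos rfl]
      have hja : j ≠ a := by
        intro h
        have := congrArg Fin.val h
        simp only [ha] at this
        omega
      obtain ⟨g1, hg1, hgv1, hgx1⟩ := move hs hvv hjj (by rw [dotProduct_comm, e_dot]; exact hj)
      obtain ⟨g2, hg2, hgv2, hgx2⟩ := move hs hjj haa (by
        rw [e_dot_e, if_neg hja]; norm_num)
      refine hfin (g2 * g1) (hg2.mul hg1) (by rw [← Matrix.mulVec_mulVec, hgv1, hgv2]) ?_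
      intro i hi
      have hji : e n j ⬝ᵥ e n i = 0 := by
        rw [e_dot_e, if_neg]
        intro h
        have := congrArg Fin.val h
        omega
      have hai : e n a ⬝ᵥ e n i = 0 := by
        rw [e_dot_e, if_neg]
        intro h
        have := congrArg Fin.val h
        simp only [ha] at this
        omega
      rw [← Matrix.mulVec_mulVec, hgx1 _ (hvi i hi) hji, hgx2 _ hji hai]

theorem soi : S_soi := by
  intro n k s hs R hR hdet
  exact claim hs (n + 1) (by omega) R hR hdet fun i hi => absurd i.2 (by omega)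

end

end Pool.Agent.W216.PG.SOI
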