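import Pool.Agent.W544.PG.Defs

set_option autoImplicit false

/-!
# Three by three block matrices
-/

open Matrix Finset Module

namespace Pool.Agent.W216.PG

open Pool.Agent.W544.PG

noncomputable section

variable {p q : ℕ}

/-- three by three block matrix -/
def bl (a : Matrix (Fin p) (Fin p) ℂ) (b : Matrix (Fin p) (Fin q) ℂ) (c : Matrix (Fin p) (Fin p) ℂ)
    (d : Matrix (Fin q) (Fin p) ℂ) (e : Matrix (Fin q) (Fin q) ℂ) (f : Matrix (Fin q) (Fin p) ℂ)
    (g : Matrix (Fin p) (Fin p) ℂ) (h : Matrix (Fin p) (Fin q) ℂ) (i : Matrix (Fin p) (Fin p) ℂ) :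
    Matrix (I p q) (I p q) ℂ :=
  fromBlocks a (fromCols b c) (fromRows d g) (fromBlocks e f h i)

variable {a a' : Matrix (Fin p) (Fin p) ℂ} {b b' : Matrix (Fin p) (Fin q) ℂ}
  {c c' : Matrix (Fin p) (Fin p) ℂ} {d d' : Matrix (Fin q) (Fin p) ℂ}
  {e e' : Matrix (Fin q) (Fin q) ℂ} {f f' : Matrix (Fin q) (Fin p) ℂ}
  {g g' : Matrix (Fin p) (Fin p) ℂ} {h h' : Matrix (Fin p) (Fin q) ℂ}
  {i i' : Matrix (Fin p) (Fin p) ℂ}

@[simp] lemma bl_11 (x : Fin p) (y : Fin p) :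
    bl a b c d e f g h i (Sum.inl x) (Sum.inl y) = a x y := rfl
@[simp] lemma bl_12 (x : Fin p) (y : Fin q) :
    bl a b c d e f g h i (Sum.inl x) (Sum.inr (Sum.inl y)) = b x y := rfl
@[simp] lemma bl_13 (x : Fin p) (y : Fin p) :
    bl a b c d e f g h i (Sum.inl x) (Sum.inr (Sum.inr y)) = c x y := rfl
@[simp] lemma bl_21 (x : Fin q) (y : Fin p) :
    bl a b c d e f g h i (Sum.inr (Sum.inl x)) (Sum.inl y) = d x y := rfl
@[simp] lemma bl_22 (x : Fin q) (y : Fin q) :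
    bl a b c d e f g h i (Sum.inr (Sum.inl x)) (Sum.inr (Sum.inl y)) = e x y := rfl
@[simp] lemma bl_23 (x : Fin q) (y : Fin p) :
    bl a b c d e f g h i (Sum.inr (Sum.inl x)) (Sum.inr (Sum.inr y)) = f x y := rfl
@[simp] lemma bl_31 (x : Fin p) (y : Fin p) :
    bl a b c d e f g h i (Sum.inr (Sum.inr x)) (Sum.inl y) = g x y := rfl
@[simp] lemma bl_32 (x : Fin p) (y : Fin q) :
    bl a b c d e f g h i (Sum.inr (Sum.inr x)) (Sum.inr (Sum.inl y)) = h x y := rfl
@[simp] lemma bl_33 (x : Fin p) (y : Fin p) :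
    bl a b c d e f g h i (Sum.inr (Sum.inr x)) (Sum.inr (Sum.inr y)) = i x y := rfl

lemma bl_mul : bl a b c d e f g h i * bl a' b' c' d' e' f' g' h' i' =
    bl (a * a' + b * d' + c * g') (a * b' + b * e' + c * h') (a * c' + b * f' + c * i')
      (d * a' + e * d' + f * g') (d * b' + e * e' + f * h') (d * c' + e * f' + f * i')
      (g * a' + h * d' + i * g') (g * b' + h * e' + i * h') (g * c' + h * f' + i * i') := by
  ext x y
  rcases x with x | x | x <;> rcases y with y | y | y <;>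
    simp [Matrix.mul_apply, Fintype.sum_sum_type, add_assoc]

lemma bl_sub : bl a b c d e f g h i - bl a' b' c' d' e' f' g' h' i' =
    bl (a - a') (b - b') (c - c') (d - d') (e - e') (f - f') (g - g') (h - h') (i - i') := by
  ext x y
  rcases x with x | x | x <;> rcases y with y | y | y <;> simp

lemma bl_add : bl a b c d e f g h i + bl a' b' c' d' e' f' g' h' i' =
    bl (a + a') (b + b') (c + c') (d + d') (e + e') (f + f') (g + g') (h + h') (i + i') := by
  ext x y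
  rcases x with x | x | x <;> rcases y with y | y | y <;> simp

lemma bl_smul (t : ℂ) : t • bl a b c d e f g h i =
    bl (t • a) (t • b) (t • c) (t • d) (t • e) (t • f) (t • g) (t • h) (t • i) := by
  ext x y
  rcases x with x | x | x <;> rcases y with y | y | y <;> simp

lemma bl_zero : (bl 0 0 0 0 0 0 0 0 0 : Matrix (I p q) (I p q) ℂ) = 0 := by
  ext x y
  rcases x with x | x | x <;> rcases y with y | y | y <;> simp

lemma bl_ct : (bl a b c d e f g h i)ᴴ = bl aᴴ dᴴ gᴴ bᴴ eᴴ hᴴ cᴴ fᴴ iᴴ := by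
  ext x y
  rcases x with x | x | x <;> rcases y with y | y | y <;> simp [conjTranspose_apply]

lemma bl_t : (bl a b c d e f g h i)ᵀ = bl aᵀ dᵀ gᵀ bᵀ eᵀ hᵀ cᵀ fᵀ iᵀ := by
  ext x y
  rcases x with x | x | x <;> rcases y with y | y | y <;> simp [transpose_apply]

lemma bl_inj : bl a b c d e f g h i = bl a' b' c' d' e' f' g' h' i' ↔
    a = a' ∧ b = b' ∧ c = c' ∧ d = d' ∧ e = e' ∧ f = f' ∧ g = g' ∧ h = h' ∧ i = i' := by
  constructor
  · intro H
    refine ⟨?_, ?_, ?_, ?_, ?_, ?_, ?_, ?_, ?_⟩ <;> ext x y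
    · exact congrFun (congrFun H (Sum.inl x)) (Sum.inl y)
    · exact congrFun (congrFun H (Sum.inl x)) (Sum.inr (Sum.inl y))
    · exact congrFun (congrFun H (Sum.inl x)) (Sum.inr (Sum.inr y))
    · exact congrFun (congrFun H (Sum.inr (Sum.inl x))) (Sum.inl y)
    · exact congrFun (congrFun H (Sum.inr (Sum.inl x))) (Sum.inr (Sum.inl y))
    · exact congrFun (congrFun H (Sum.inr (Sum.inl x))) (Sum.inr (Sum.inr y))
    · exact congrFun (congrFun H (Sum.inr (Sum.inr x))) (Sum.inl y)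
    · exact congrFun (congrFun H (Sum.inr (Sum.inr x))) (Sum.inr (Sum.inl y))
    · exact congrFun (congrFun H (Sum.inr (Sum.inr x))) (Sum.inr (Sum.inr y))
  · rintro ⟨rfl, rfl, rfl, rfl, rfl, rfl, rfl, rfl, rfl⟩
    rfl

lemma big0_eq (X : Matrix (Fin p) (Fin p) ℂ × Matrix (Fin q) (Fin q) ℂ) :
    big0 X = bl X.1 0 0 0 X.2 0 0 0 (-X.1ᵀ) := by
  ext x y
  rcases x with x | x | x <;> rcases y with y | y | y <;> simp [big0]

lemma big1_eq (F : Matrix (Fin p) (Fin q) ℂ) :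
    big1 F = bl 0 F 0 0 0 (-Fᵀ) 0 0 0 := by
  ext x y
  rcases x with x | x | x <;> rcases y with y | y | y <;> simp [big1]

lemma big2_eq (Y : Matrix (Fin p) (Fin p) ℂ) :
    (big2 Y : Matrix (I p q) (I p q) ℂ) = bl 0 0 Y 0 0 0 0 0 0 := by
  ext x y
  rcases x with x | x | x <;> rcases y with y | y | y <;> simp [big2]

lemma B0_eq : B0 p q = bl 0 0 1 0 1 0 1 0 0 := by
  ext x y
  rcases x with x | x | x <;> rcases y with y | y | y <;> simp [B0]

/-- vector with three components -/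
def tri (u : Fin p → ℂ) (v : Fin q → ℂ) (w : Fin p → ℂ) : I p q → ℂ :=
  Sum.elim u (Sum.elim v w)

lemma tri_surj (x : I p q → ℂ) : ∃ u v w, x = tri u v w := by
  refine ⟨x ∘ Sum.inl, x ∘ Sum.inr ∘ Sum.inl, x ∘ Sum.inr ∘ Sum.inr, ?_⟩
  funext i
  rcases i with i | i | i <;> rfl

lemma bl_tri (u : Fin p → ℂ) (v : Fin q → ℂ) (w : Fin p → ℂ) :
    bl a b c d e f g h i *ᵥ tri u v w = tri (a *ᵥ u + b *ᵥ v + c *ᵥ w)
      (d *ᵥ u + e *ᵥ v + f *ᵥ w) (g *ᵥ u + h *ᵥ v + i *ᵥ w) := by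
  funext x
  rcases x with x | x | x <;>
    simp [tri, Matrix.mulVec, dotProduct, Fintype.sum_sum_type, add_assoc]

end

end Pool.Agent.W216.PG
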