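import Pool.Agent.W619.Y.Stm8
import Pool.Agent.W721.PG.EFF2

/-! Effectivity with boundary for quotients of `Y × C 1 × ... × C n` (part EFF3 of project PG;
adapted from `Pool.Agent.W721.PG.EFF2`). -/

set_option autoImplicit false
set_option linter.overlappingInstances false
set_option linter.unusedSectionVars false

universe u v

open FF IntermediateField Pool.Agent.W619.PQ Pool.Agent.W619.PL Pool.Agent.W619.TW
  Pool.Agent.W603.LV Pool.Agent.W619.Y Pool.Agent.W721.PG.EFF2

namespace Pool.Agent.W216.PG.EFF3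

section main

variable {k : Type v} {L : Type u} [Field k] [CharZero k] [Field L] [Algebra k L]

theorem main (h1 : S_EXT.{u, v}) (h2 : S_REG3.{u, v}) : S_EFF3.{u, v} := by
  classical
  intro k L _ _ _ _ _ d n F hF G _ σ hn hG Bd N m hN hfree hm x b hxQ hxt hxg hbQ hb0 hgood y a
    ha0 hY hbasis
  have halgK := alg_fixed G
  have := Fintype.ofFinite G
  obtain ⟨hnK, z, hz⟩ := exists_basis (fixedField G) (d + n) hn
  choose ext hext hext2 hext3 using h1 k (fixedField G) L (d + n) hnK
  obtain ⟨D0, hD0⟩ := exists_det (fixedField G) (d + n) z hz (Fin.append y x) hbasis ext hext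
  have hfix : ∀ (g : G) (f : fixedField G), (g : L ≃ₐ[k] L) (algebraMap (fixedField G) L f) =
      algebraMap (fixedField G) L f := fun g f => f.2 g
  let V : (Fin (d + n) → Derivation k (fixedField G) (fixedField G)) → L := fun D =>
    a * (∏ i, b i) *
      (Matrix.of fun i j => ext (D j) ((Fin.append y x : Fin (d + n) → L) i)).det ^ m
  let P : (Fin (d + n) → Derivation k (fixedField G) (fixedField G)) → L := fun D =>
    ∏ g : G, (g : L ≃ₐ[k] L) (V D)
  have hP : ∀ D (h : G), (h : L ≃ₐ[k] L) (P D) = P D := by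
    intro D h
    change (h : L ≃ₐ[k] L) (∏ g : G, (g : L ≃ₐ[k] L) (V D)) = ∏ g : G, (g : L ≃ₐ[k] L) (V D)
    rw [map_prod]
    exact Fintype.prod_equiv (Equiv.mulLeft h) _ _ (fun g => rfl)
  have hVlin : ∀ (A : Matrix (Fin (d + n)) (Fin (d + n)) (fixedField G))
      (D : Fin (d + n) → Derivation k (fixedField G) (fixedField G)),
      V (fun i => ∑ j, A i j • D j) = V D * (algebraMap (fixedField G) L A.det) ^ m := by
    intro A D
    have e1 : ∀ j, ext (∑ l, A j l • D l) = ∑ l, (algebraMap (fixedField G) L (A j l)) •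
        ext (D l) := by
      intro j
      symm
      apply hext2
      intro f
      rw [der_sum, der_sum, map_sum]
      refine Finset.sum_congr rfl fun l _ => ?_
      rw [hext, map_mul]
    have e2 : (Matrix.of fun i j => ext (∑ l, A j l • D l)
        ((Fin.append y x : Fin (d + n) → L) i)) =
        (Matrix.of fun i j => ext (D j) ((Fin.append y x : Fin (d + n) → L) i)) *
          (A.map (algebraMap (fixedField G) L)).transpose := by
      ext i j
      simp only [Matrix.of_apply, Matrix.mul_apply, Matrix.transpose_apply, Matrix.map_apply]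
      rw [e1, der_sum]
      exact Finset.sum_congr rfl fun l _ => mul_comm _ _
    have e3 : (A.map (algebraMap (fixedField G) L)).det = algebraMap (fixedField G) L A.det := by
      rw [RingHom.map_det]
      rfl
    change a * (∏ i, b i) * (Matrix.of fun i j => ext (∑ l, A j l • D l)
        ((Fin.append y x : Fin (d + n) → L) i)).det ^ m = _
    rw [e2, Matrix.det_mul, Matrix.det_transpose, e3, mul_pow]
    change _ = a * (∏ i, b i) *
      (Matrix.of fun i j => ext (D j) ((Fin.append y x : Fin (d + n) → L) i)).det ^ m * _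
    ring
  have hPlin : ∀ (A : Matrix (Fin (d + n)) (Fin (d + n)) (fixedField G))
      (D : Fin (d + n) → Derivation k (fixedField G) (fixedField G)),
      P (fun i => ∑ j, A i j • D j) =
        (algebraMap (fixedField G) L A.det) ^ (m * Nat.card G) * P D := by
    intro A D
    change ∏ g : G, (g : L ≃ₐ[k] L) (V (fun i => ∑ j, A i j • D j)) = _
    rw [hVlin]
    have e1 : ∀ g : G, (g : L ≃ₐ[k] L) (V D * (algebraMap (fixedField G) L A.det) ^ m) =
        (g : L ≃ₐ[k] L) (V D) * (algebraMap (fixedField G) L A.det) ^ m := by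
      intro g
      rw [map_mul, map_pow, hfix]
    simp only [e1]
    rw [Finset.prod_mul_distrib, Finset.prod_const, Finset.card_univ, ← Nat.card_eq_fintype_card,
      ← pow_mul, mul_comm]
  have hcard : 1 ≤ Nat.card G := Nat.card_pos
  refine ⟨m * Nat.card G, Nat.mul_pos hm hcard, fun D => ⟨P D, fun g => hP D g⟩, ⟨?_, ?_, ?_⟩,
    D0, ?_⟩
  · intro A D
    apply Subtype.ext
    change P (fun i => ∑ j, A i j • D j) = algebraMap (fixedField G) L (A.det ^ (m * Nat.card G) *
      ⟨P D, fun g => hP D g⟩)
    rw [hPlin, map_mul, map_pow]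
    rfl
  · intro v hv hnb D hD
    apply Pool.Agent.W721.PG.EFF2.dom_of_reg
    obtain ⟨w, e, hwv, hreg⟩ := h2 k L d n F G σ hn hG N hN hfree x hxQ hxt hxg v hv
    rw [← hwv.reg]
    change Ge w 0 (∏ g : G, (g : L ≃ₐ[k] L) (V D))
    apply ge_prod0
    intro g _
    exact (hreg m b hbQ hb0 y a hY D (fun j => ext (D j)) (fun j f => hext (D j) f)).1
      (fun i w' e' hw' => (hgood i v w' e' hw').1 hnb) hD g
  · intro v hv hb D hD
    apply Pool.Agent.W721.PG.EFF2.dom_of_reg
    obtain ⟨w, e, hwv, hreg⟩ := h2 k L d n F G σ hn hG N hN hfree x hxQ hxt hxg v hv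
    rw [← hwv.reg]
    change Ge w 0 (∏ g : G, (g : L ≃ₐ[k] L) (V D))
    apply ge_prod0
    intro g _
    exact (hreg m b hbQ hb0 y a hY D (fun j => ext (D j)) (fun j f => hext (D j) f)).2
      (fun i w' e' hw' => (hgood i v w' e' hw').2 hb) hD g
  · intro h0
    have h3 : P D0 = 0 := congrArg (fun z : fixedField G => (z : L)) h0
    have h4 : V D0 ≠ 0 :=
      mul_ne_zero (mul_ne_zero ha0 (Finset.prod_ne_zero_iff.2 fun i _ => hb0 i))
        (pow_ne_zero _ hD0)
    have h5 : P D0 ≠ 0 := Finset.prod_ne_zero_iff.2 fun g _ => by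
      rw [Ne, map_eq_zero_iff _ (g : L ≃ₐ[k] L).injective]
      exact h4
    exact h5 h3

end main

end Pool.Agent.W216.PG.EFF3
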