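import Pool.Agent.W216.PG.Blk

set_option autoImplicit false

/-!
# PG-GRD: a Lie algebra of skew operators containing the grading element is graded
-/

open Matrix Finset Module

namespace Pool.Agent.W216.PG.GRD

open Pool.Agent.W544.PG Pool.Agent.W216.PG

noncomputable section

variable {p q : ℕ}

/-- `big0` as a linear map -/
def L0 : (Matrix (Fin p) (Fin p) ℂ × Matrix (Fin q) (Fin q) ℂ) →ₗ[ℂ]
    Matrix (I p q) (I p q) ℂ where
  toFun := big0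
  map_add' X X' := by
    rw [big0_eq, big0_eq, big0_eq, bl_add, bl_inj]
    refine ⟨rfl, ?_, ?_, ?_, rfl, ?_, ?_, ?_, ?_⟩ <;> simp [add_comm]
  map_smul' c X := by
    rw [big0_eq, RingHom.id_apply, big0_eq, bl_smul, bl_inj]
    refine ⟨rfl, ?_, ?_, ?_, rfl, ?_, ?_, ?_, ?_⟩ <;> simp

/-- `big1` as a linear map -/
def L1 : Matrix (Fin p) (Fin q) ℂ →ₗ[ℂ] Matrix (I p q) (I p q) ℂ where
  toFun := big1
  map_add' X X' := by
    rw [big1_eq, big1_eq, big1_eq, bl_add, bl_inj]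
    refine ⟨?_, rfl, ?_, ?_, ?_, ?_, ?_, ?_, ?_⟩ <;> simp [add_comm]
  map_smul' c X := by
    rw [big1_eq, RingHom.id_apply, big1_eq, bl_smul, bl_inj]
    refine ⟨?_, rfl, ?_, ?_, ?_, ?_, ?_, ?_, ?_⟩ <;> simp

/-- `big2` as a linear map -/
def L2 (p q : ℕ) : Matrix (Fin p) (Fin p) ℂ →ₗ[ℂ] Matrix (I p q) (I p q) ℂ where
  toFun := big2
  map_add' X X' := by
    rw [big2_eq, big2_eq, big2_eq, bl_add, bl_inj]
    refine ⟨?_, ?_, rfl, ?_, ?_, ?_, ?_, ?_, ?_⟩ <;> simp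
  map_smul' c X := by
    rw [big2_eq, RingHom.id_apply, big2_eq, bl_smul, bl_inj]
    refine ⟨?_, ?_, rfl, ?_, ?_, ?_, ?_, ?_, ?_⟩ <;> simp

lemma skew_bl {a : Matrix (Fin p) (Fin p) ℂ} {b : Matrix (Fin p) (Fin q) ℂ}
    {c : Matrix (Fin p) (Fin p) ℂ} {d : Matrix (Fin q) (Fin p) ℂ}
    {e : Matrix (Fin q) (Fin q) ℂ} {f : Matrix (Fin q) (Fin p) ℂ}
    {g : Matrix (Fin p) (Fin p) ℂ} {h : Matrix (Fin p) (Fin q) ℂ}
    {i : Matrix (Fin p) (Fin p) ℂ}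
    (H : (bl a b c d e f g h i)ᵀ * B0 p q + B0 p q * bl a b c d e f g h i = 0) :
    i = -aᵀ ∧ f = -bᵀ ∧ cᵀ = -c ∧ h = -dᵀ ∧ eᵀ = -e ∧ gᵀ = -g := by
  rw [B0_eq, bl_t, bl_mul, bl_mul, bl_add, ← bl_zero, bl_inj] at H
  simp only [Matrix.mul_zero, Matrix.mul_one, Matrix.zero_mul, Matrix.one_mul, zero_add,
    add_zero] at H
  obtain ⟨h1, h2, h3, -, h5, h6, -, -, h9⟩ := H
  refine ⟨?_, ?_, ?_, ?_, ?_, ?_⟩
  · exact eq_neg_of_add_eq_zero_right h3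
  · exact eq_neg_of_add_eq_zero_right h6
  · exact eq_neg_of_add_eq_zero_left h9
  · exact eq_neg_of_add_eq_zero_right h2
  · exact eq_neg_of_add_eq_zero_left h5
  · exact eq_neg_of_add_eq_zero_left h1

lemma x0_eq : x0 p q = bl 1 0 0 0 0 0 0 0 (-1) := by
  rw [x0, big0_eq]
  simp

lemma ad_bl {a : Matrix (Fin p) (Fin p) ℂ} {b : Matrix (Fin p) (Fin q) ℂ}
    {c : Matrix (Fin p) (Fin p) ℂ} {d : Matrix (Fin q) (Fin p) ℂ}
    {e : Matrix (Fin q) (Fin q) ℂ} {f : Matrix (Fin q) (Fin p) ℂ}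
    {g : Matrix (Fin p) (Fin p) ℂ} {h : Matrix (Fin p) (Fin q) ℂ}
    {i : Matrix (Fin p) (Fin p) ℂ} :
    x0 p q * bl a b c d e f g h i - bl a b c d e f g h i * x0 p q =
      bl 0 b (c + c) (-d) 0 f (-(g + g)) (-h) 0 := by
  rw [x0_eq, bl_mul, bl_mul, bl_sub, bl_inj]
  refine ⟨?_, ?_, ?_, ?_, ?_, ?_, ?_, ?_, ?_⟩ <;> simp
  abel

lemma bl_surj (Z : Matrix (I p q) (I p q) ℂ) : ∃ a b c d e f g h i,
    Z = bl a b c d e f g h i := by
  refine ⟨Matrix.of fun x y => Z (Sum.inl x) (Sum.inl y),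
    Matrix.of fun x y => Z (Sum.inl x) (Sum.inr (Sum.inl y)),
    Matrix.of fun x y => Z (Sum.inl x) (Sum.inr (Sum.inr y)),
    Matrix.of fun x y => Z (Sum.inr (Sum.inl x)) (Sum.inl y),
    Matrix.of fun x y => Z (Sum.inr (Sum.inl x)) (Sum.inr (Sum.inl y)),
    Matrix.of fun x y => Z (Sum.inr (Sum.inl x)) (Sum.inr (Sum.inr y)),
    Matrix.of fun x y => Z (Sum.inr (Sum.inr x)) (Sum.inl y),
    Matrix.of fun x y => Z (Sum.inr (Sum.inr x)) (Sum.inr (Sum.inl y)),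
    Matrix.of fun x y => Z (Sum.inr (Sum.inr x)) (Sum.inr (Sum.inr y)), ?_⟩
  ext x y
  rcases x with x | x | x <;> rcases y with y | y | y <;> rfl

lemma ct_t {m n : ℕ} (F : Matrix (Fin m) (Fin n) ℂ) : (Fᵀ)ᴴ = (Fᴴ)ᵀ := rfl

/-- the graded parts of an element -/
lemma parts {h : Submodule ℂ (Matrix (I p q) (I p q) ℂ)}
    (hbr : ∀ X ∈ h, ∀ Y ∈ h, X * Y - Y * X ∈ h) (hx0 : x0 p q ∈ h)
    {a : Matrix (Fin p) (Fin p) ℂ} {b : Matrix (Fin p) (Fin q) ℂ}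
    {c : Matrix (Fin p) (Fin p) ℂ} {d : Matrix (Fin q) (Fin p) ℂ}
    {e : Matrix (Fin q) (Fin q) ℂ} {f : Matrix (Fin q) (Fin p) ℂ}
    {g : Matrix (Fin p) (Fin p) ℂ} {k : Matrix (Fin p) (Fin q) ℂ}
    {i : Matrix (Fin p) (Fin p) ℂ} (hZ : bl a b c d e f g k i ∈ h) :
    bl 0 0 c 0 0 0 0 0 0 ∈ h ∧ bl 0 0 0 0 0 0 g 0 0 ∈ h ∧ bl 0 b 0 0 0 f 0 0 0 ∈ h ∧
      bl 0 0 0 d 0 0 0 k 0 ∈ h ∧ bl a 0 0 0 e 0 0 0 i ∈ h := by
  have z1 := hbr _ hx0 _ hZ
  rw [ad_bl] at z1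
  have z2 := hbr _ hx0 _ z1
  rw [ad_bl] at z2
  have z3 := hbr _ hx0 _ z2
  rw [ad_bl] at z3
  have z4 := hbr _ hx0 _ z3
  rw [ad_bl] at z4
  have w1 := h.add_mem (h.smul_mem (1 / 24 : ℂ) (h.sub_mem z4 z2))
    (h.smul_mem (1 / 12 : ℂ) (h.sub_mem z3 z1))
  have w2 := h.sub_mem (h.smul_mem (1 / 24 : ℂ) (h.sub_mem z4 z2))
    (h.smul_mem (1 / 12 : ℂ) (h.sub_mem z3 z1))
  have w3 := h.add_mem (h.sub_mem (h.smul_mem (2 / 3 : ℂ) z2) (h.smul_mem (1 / 6 : ℂ) z4))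
    (h.sub_mem (h.smul_mem (2 / 3 : ℂ) z1) (h.smul_mem (1 / 6 : ℂ) z3))
  have w4 := h.sub_mem (h.sub_mem (h.smul_mem (2 / 3 : ℂ) z2) (h.smul_mem (1 / 6 : ℂ) z4))
    (h.sub_mem (h.smul_mem (2 / 3 : ℂ) z1) (h.smul_mem (1 / 6 : ℂ) z3))
  have e1 : bl 0 0 c 0 0 0 0 0 0 ∈ h := by
    refine (congrArg (· ∈ h) ?_).mp w1
    ext x y
    rcases x with x | x | x <;> rcases y with y | y | y <;> simp <;> ring
  have e2 : bl 0 0 0 0 0 0 g 0 0 ∈ h := by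
    refine (congrArg (· ∈ h) ?_).mp w2
    ext x y
    rcases x with x | x | x <;> rcases y with y | y | y <;> simp <;> ring
  have e3 : bl 0 b 0 0 0 f 0 0 0 ∈ h := by
    refine (congrArg (· ∈ h) ?_).mp w3
    ext x y
    rcases x with x | x | x <;> rcases y with y | y | y <;> simp <;> ring
  have e4 : bl 0 0 0 d 0 0 0 k 0 ∈ h := by
    refine (congrArg (· ∈ h) ?_).mp w4
    ext x y
    rcases x with x | x | x <;> rcases y with y | y | y <;> simp <;> ring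
  refine ⟨e1, e2, e3, e4, ?_⟩
  have w5 := h.sub_mem (h.sub_mem (h.sub_mem (h.sub_mem hZ e1) e2) e3) e4
  refine (congrArg (· ∈ h) ?_).mp w5
  ext x y
  rcases x with x | x | x <;> rcases y with y | y | y <;> simp

theorem grd : S_grd := by
  intro p q h hsk hst hbr hx0
  have hsk0 : ∀ X : Matrix (Fin p) (Fin p) ℂ × Matrix (Fin q) (Fin q) ℂ, big0 X ∈ h →
      X.2ᵀ = -X.2 := by
    intro X hX
    have := hsk _ hX
    rw [big0_eq] at this
    exact (skew_bl this).2.2.2.2.1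
  let G : Gr p q :=
    { h0 := h.comap L0
      h1 := h.comap L1
      h2 := h.comap (L2 p q)
      skew0 := hsk0
      skew2 := fun Y hY => by
        have := hsk _ hY
        rw [show (L2 p q) Y = big2 Y from rfl, big2_eq] at this
        exact (skew_bl this).2.2.1
      star0 := fun X hX => by
        have h1 := hst _ hX
        refine (congrArg (· ∈ h) ?_).mp h1
        show (big0 X)ᴴ = big0 (X.1ᴴ, X.2ᴴ)
        rw [big0_eq, big0_eq, bl_ct, bl_inj]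
        refine ⟨rfl, ?_, ?_, ?_, rfl, ?_, ?_, ?_, ?_⟩ <;> simp [ct_t]
      one := hx0
      b00 := fun X hX X' hX' => by
        have h1 := hbr _ hX _ hX'
        refine (congrArg (· ∈ h) ?_).mp h1
        show big0 X * big0 X' - big0 X' * big0 X =
          big0 (X.1 * X'.1 - X'.1 * X.1, X.2 * X'.2 - X'.2 * X.2)
        rw [big0_eq, big0_eq, big0_eq, bl_mul, bl_mul, bl_sub, bl_inj]
        refine ⟨?_, ?_, ?_, ?_, ?_, ?_, ?_, ?_, ?_⟩ <;> simp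
      b01 := fun X hX F hF => by
        have h1 := hbr _ hX _ hF
        refine (congrArg (· ∈ h) ?_).mp h1
        show big0 X * big1 F - big1 F * big0 X = big1 (X.1 * F - F * X.2)
        rw [big0_eq, big1_eq, big1_eq, bl_mul, bl_mul, bl_sub, bl_inj]
        refine ⟨?_, ?_, ?_, ?_, ?_, ?_, ?_, ?_, ?_⟩ <;> simp [hsk0 X hX]
        abel
      b02 := fun X hX Y hY => by
        have h1 := hbr _ hX _ hY
        refine (congrArg (· ∈ h) ?_).mp h1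
        show big0 X * big2 Y - big2 Y * big0 X = big2 (X.1 * Y + Y * X.1ᵀ)
        rw [big0_eq, big2_eq, big2_eq, bl_mul, bl_mul, bl_sub, bl_inj]
        refine ⟨?_, ?_, ?_, ?_, ?_, ?_, ?_, ?_, ?_⟩ <;> simp
      b11 := fun F hF F' hF' => by
        have h1 := hbr _ hF _ hF'
        refine (congrArg (· ∈ h) ?_).mp h1
        show big1 F * big1 F' - big1 F' * big1 F = big2 (F' * Fᵀ - F * F'ᵀ)
        rw [big1_eq, big1_eq, big2_eq, bl_mul, bl_mul, bl_sub, bl_inj]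
        refine ⟨?_, ?_, ?_, ?_, ?_, ?_, ?_, ?_, ?_⟩ <;> simp
        abel
      b1s := fun F hF F' hF' => by
        have h1 := hbr _ hF _ (hst _ hF')
        refine (congrArg (· ∈ h) ?_).mp h1
        show big1 F * (big1 F')ᴴ - (big1 F')ᴴ * big1 F =
          big0 (F * F'ᴴ, (F'ᴴ * F)ᵀ - F'ᴴ * F)
        rw [big1_eq, big1_eq, big0_eq, bl_ct, bl_mul, bl_mul, bl_sub, bl_inj]
        refine ⟨?_, ?_, ?_, ?_, ?_, ?_, ?_, ?_, ?_⟩ <;> simp [ct_t]
      b2s := fun Y hY F hF => by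
        have h1 := hbr _ hY _ (hst _ hF)
        have h2 := h.neg_mem h1
        have hYt : Yᵀ = -Y := by
          have := hsk _ hY
          rw [show (L2 p q) Y = big2 Y from rfl, big2_eq] at this
          exact (skew_bl this).2.2.1
        refine (congrArg (· ∈ h) ?_).mp h2
        show -(big2 Y * (big1 F)ᴴ - (big1 F)ᴴ * big2 Y) = big1 (Y * (Fᴴ)ᵀ)
        rw [big1_eq, big1_eq, big2_eq, bl_ct, bl_mul, bl_mul, bl_sub, ← neg_one_smul ℂ, bl_smul,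
          bl_inj]
        refine ⟨?_, ?_, ?_, ?_, ?_, ?_, ?_, ?_, ?_⟩ <;> simp [ct_t, hYt]
      b22 := fun Y hY Y' hY' => by
        have h1 := hbr _ hY _ (hst _ hY')
        have hYt : Yᵀ = -Y := by
          have := hsk _ hY
          rw [show (L2 p q) Y = big2 Y from rfl, big2_eq] at this
          exact (skew_bl this).2.2.1
        have hYt' : Y'ᵀ = -Y' := by
          have := hsk _ hY'
          rw [show (L2 p q) Y' = big2 Y' from rfl, big2_eq] at this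
          exact (skew_bl this).2.2.1
        have hYh : (Y'ᴴ)ᵀ = -Y'ᴴ := by
          rw [← ct_t, hYt', conjTranspose_neg]
        refine (congrArg (· ∈ h) ?_).mp h1
        show big2 Y * (big2 Y')ᴴ - (big2 Y')ᴴ * big2 Y = big0 (Y * Y'ᴴ, 0)
        rw [big2_eq, big2_eq, big0_eq, bl_ct, bl_mul, bl_mul, bl_sub, bl_inj]
        refine ⟨?_, ?_, ?_, ?_, ?_, ?_, ?_, ?_, ?_⟩ <;> simp [hYt, hYh] }
  refine ⟨G, le_antisymm ?_ ?_⟩
  · refine Submodule.span_le.2 ?_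
    rintro y (⟨X, hX, rfl⟩ | ⟨F, hF, rfl | rfl⟩ | ⟨Y, hY, rfl | rfl⟩)
    · exact hX
    · exact hF
    · exact hst _ hF
    · exact hY
    · exact hst _ hY
  · intro Z hZ
    obtain ⟨a, b, c, d, e, f, g, k, i, rfl⟩ := bl_surj Z
    obtain ⟨s1, s2, s3, s4, s5, s6⟩ := skew_bl (hsk _ hZ)
    obtain ⟨p1, p2, p3, p4, p5⟩ := parts hbr hx0 hZ
    have m0 : bl a 0 0 0 e 0 0 0 i ∈ G.alg := by
      have e0 : bl a 0 0 0 e 0 0 0 i = big0 (a, e) := by rw [big0_eq, s1]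
      rw [e0] at p5 ⊢
      exact Submodule.subset_span (Or.inl ⟨_, p5, rfl⟩)
    have m1 : bl 0 b 0 0 0 f 0 0 0 ∈ G.alg := by
      have e0 : bl 0 b 0 0 0 f 0 0 0 = big1 b := by rw [big1_eq, s2]
      rw [e0] at p3 ⊢
      exact Submodule.subset_span (Or.inr (Or.inl ⟨_, p3, Or.inl rfl⟩))
    have m2 : (bl 0 0 c 0 0 0 0 0 0 : Matrix (I p q) (I p q) ℂ) ∈ G.alg := by
      have e0 : (bl 0 0 c 0 0 0 0 0 0 : Matrix (I p q) (I p q) ℂ) = big2 c := by rw [big2_eq]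
      rw [e0] at p1 ⊢
      exact Submodule.subset_span (Or.inr (Or.inr ⟨_, p1, Or.inl rfl⟩))
    have m3 : bl 0 0 0 d 0 0 0 k 0 ∈ G.alg := by
      have e0 : bl 0 0 0 d 0 0 0 k 0 = (big1 dᴴ)ᴴ := by
        rw [big1_eq, bl_ct, bl_inj]
        refine ⟨?_, ?_, ?_, ?_, ?_, ?_, ?_, ?_, ?_⟩ <;> simp [ct_t, s4]
      have e1 : big1 dᴴ ∈ h := by
        have := hst _ p4
        rwa [e0, conjTranspose_conjTranspose] at this
      rw [e0]
      exact Submodule.subset_span (Or.inr (Or.inl ⟨_, e1, Or.inr rfl⟩))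
    have m4 : (bl 0 0 0 0 0 0 g 0 0 : Matrix (I p q) (I p q) ℂ) ∈ G.alg := by
      have e0 : (bl 0 0 0 0 0 0 g 0 0 : Matrix (I p q) (I p q) ℂ) = (big2 gᴴ)ᴴ := by
        rw [big2_eq, bl_ct, bl_inj]
        refine ⟨?_, ?_, ?_, ?_, ?_, ?_, ?_, ?_, ?_⟩ <;> simp
      have e1 : (big2 gᴴ : Matrix (I p q) (I p q) ℂ) ∈ h := by
        have := hst _ p2
        rwa [e0, conjTranspose_conjTranspose] at this
      rw [e0]
      exact Submodule.subset_span (Or.inr (Or.inr ⟨_, e1, Or.inr rfl⟩))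
    have := G.alg.add_mem (G.alg.add_mem (G.alg.add_mem (G.alg.add_mem m0 m1) m2) m3) m4
    refine (congrArg (· ∈ G.alg) ?_).mp this
    ext x y
    rcases x with x | x | x <;> rcases y with y | y | y <;> simp

end

end Pool.Agent.W216.PG.GRD
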