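import Pool.Agent.W216.PG.Blk

set_option autoImplicit false

/-!
# PG-IRR: irreducibility of the graded pieces
-/

open Matrix Finset Module

namespace Pool.Agent.W216.PG

open Pool.Agent.W544.PG

noncomputable section

variable {p q : ℕ} (G : Gr p q)

lemma big0_ct (X : Matrix (Fin p) (Fin p) ℂ × Matrix (Fin q) (Fin q) ℂ) :
    (big0 X)ᴴ = big0 (X.1ᴴ, X.2ᴴ) := by
  rw [big0_eq, big0_eq, bl_ct]
  simp only [conjTranspose_zero, conjTranspose_neg]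
  rfl

lemma ops_ct {y : Matrix (I p q) (I p q) ℂ} (hy : y ∈ G.ops) : yᴴ ∈ G.ops := by
  rcases hy with ⟨X, hX, rfl⟩ | ⟨F, hF, rfl | rfl⟩ | ⟨Y, hY, rfl | rfl⟩
  · exact Or.inl ⟨_, G.star0 X hX, big0_ct X⟩
  · exact Or.inr (Or.inl ⟨F, hF, Or.inr rfl⟩)
  · exact Or.inr (Or.inl ⟨F, hF, Or.inl (conjTranspose_conjTranspose _)⟩)
  · exact Or.inr (Or.inr ⟨Y, hY, Or.inr rfl⟩)
  · exact Or.inr (Or.inr ⟨Y, hY, Or.inl (conjTranspose_conjTranspose _)⟩)

variable {G}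

/-- stable subspaces are trivial -/
lemma stable_triv (hG : G.Irr) (M : Submodule ℂ (I p q → ℂ))
    (hM : ∀ y ∈ G.ops, ∀ m ∈ M, y *ᵥ m ∈ M) : M = ⊥ ∨ M = ⊤ := by
  let L : EuclideanSpace ℂ (I p q) ≃ₗ[ℂ] (I p q → ℂ) := WithLp.linearEquiv 2 ℂ (I p q → ℂ)
  let M' : Submodule ℂ (EuclideanSpace ℂ (I p q)) := M.comap L.toLinearMap
  have hmem : ∀ x, x ∈ M' ↔ L x ∈ M := fun x => Iff.rfl
  have hinner : ∀ x y : EuclideanSpace ℂ (I p q), inner ℂ x y = L y ⬝ᵥ star (L x) := fun x y =>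
    EuclideanSpace.inner_eq_star_dotProduct x y
  let P : (I p q → ℂ) →ₗ[ℂ] (I p q → ℂ) :=
    L.toLinearMap ∘ₗ (M'.starProjection : EuclideanSpace ℂ (I p q) →ₗ[ℂ] _) ∘ₗ
      L.symm.toLinearMap
  have hPdef : ∀ v, P v = L (M'.starProjection (L.symm v)) := fun v => rfl
  -- the projection commutes with the operators
  have hcomm : ∀ y ∈ G.ops, ∀ v, P (y *ᵥ v) = y *ᵥ P v := by
    intro y hy v
    rw [hPdef, hPdef]
    have h1 : M'.starProjection (L.symm (y *ᵥ v)) =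
        L.symm (y *ᵥ L (M'.starProjection (L.symm v))) := by
      apply Submodule.eq_starProjection_of_mem_orthogonal
      · rw [hmem, LinearEquiv.apply_symm_apply]
        exact hM y hy _ ((hmem _).1 (Submodule.starProjection_apply_mem _ _))
      · rw [Submodule.mem_orthogonal]
        intro u hu
        have h2 : L.symm (y *ᵥ v) - L.symm (y *ᵥ L (M'.starProjection (L.symm v))) =
            L.symm (y *ᵥ L (L.symm v - M'.starProjection (L.symm v))) := by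
          rw [map_sub, LinearEquiv.apply_symm_apply, Matrix.mulVec_sub, map_sub]
        have h3 : star (L u) ᵥ* y = star (yᴴ *ᵥ L u) := by
          rw [Matrix.star_mulVec, conjTranspose_conjTranspose]
        have h4 : L.symm (yᴴ *ᵥ L u) ∈ M' := by
          rw [hmem, LinearEquiv.apply_symm_apply]
          exact hM _ (ops_ct G hy) _ hu
        have h5 := (Submodule.mem_orthogonal _ _).1
          (Submodule.sub_starProjection_mem_orthogonal (K := M') (L.symm v)) _ h4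
        rw [hinner, LinearEquiv.apply_symm_apply] at h5
        rw [h2, hinner, LinearEquiv.apply_symm_apply, dotProduct_comm,
          Matrix.dotProduct_mulVec, h3, dotProduct_comm]
        exact h5
    rw [h1, LinearEquiv.apply_symm_apply]
  obtain ⟨c, hc⟩ := hG (LinearMap.toMatrix' P) (by
    intro y hy
    apply Matrix.toLin'.injective
    apply LinearMap.ext
    intro v
    rw [Matrix.toLin'_mul, Matrix.toLin'_mul, Matrix.toLin'_toMatrix']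
    show P (Matrix.toLin' y v) = Matrix.toLin' y (P v)
    rw [Matrix.toLin'_apply, Matrix.toLin'_apply]
    exact hcomm y hy v)
  have hP : ∀ v, P v = c • v := by
    intro v
    have := congrArg (fun A => A *ᵥ v) hc
    simp only [LinearMap.toMatrix'_mulVec, Matrix.smul_mulVec, Matrix.one_mulVec] at this
    exact this
  have hPM : ∀ v ∈ M, P v = v := by
    intro v hv
    rw [hPdef]
    have h6 : L.symm v ∈ M' := by
      rw [hmem, LinearEquiv.apply_symm_apply]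
      exact hv
    rw [Submodule.starProjection_eq_self_iff.2 h6, LinearEquiv.apply_symm_apply]
  by_cases hbot : M = ⊥
  · exact Or.inl hbot
  · right
    obtain ⟨m, hm, hm0⟩ := Submodule.exists_mem_ne_zero_of_ne_bot hbot
    have h7 : c • m = m := by rw [← hP, hPM m hm]
    have h8 : c = 1 := by
      by_contra hne
      have : (c - 1) • m = 0 := by rw [sub_smul, one_smul, h7, sub_self]
      rcases smul_eq_zero.1 this with h | h
      · exact hne (sub_eq_zero.1 h)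
      · exact hm0 h
    rw [eq_top_iff]
    intro v _
    have h9 : P v = v := by rw [hP, h8, one_smul]
    rw [← h9, hPdef]
    exact (hmem _).1 (Submodule.starProjection_apply_mem _ _)

/-- the subspace with given components -/
def M3 (W : Submodule ℂ (Fin p → ℂ)) (B : Submodule ℂ (Fin q → ℂ)) (N : Submodule ℂ (Fin p → ℂ)) :
    Submodule ℂ (I p q → ℂ) where
  carrier := {v | v ∘ Sum.inl ∈ W ∧ v ∘ Sum.inr ∘ Sum.inl ∈ B ∧ v ∘ Sum.inr ∘ Sum.inr ∈ N}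
  zero_mem' := ⟨W.zero_mem, B.zero_mem, N.zero_mem⟩
  add_mem' := fun hx hy => ⟨W.add_mem hx.1 hy.1, B.add_mem hx.2.1 hy.2.1,
    N.add_mem hx.2.2 hy.2.2⟩
  smul_mem' := fun c _ hx => ⟨W.smul_mem c hx.1, B.smul_mem c hx.2.1, N.smul_mem c hx.2.2⟩

lemma mem_M3 {W : Submodule ℂ (Fin p → ℂ)} {B : Submodule ℂ (Fin q → ℂ)}
    {N : Submodule ℂ (Fin p → ℂ)} {u : Fin p → ℂ} {v : Fin q → ℂ} {w : Fin p → ℂ} :
    tri u v w ∈ M3 W B N ↔ u ∈ W ∧ v ∈ B ∧ w ∈ N := Iff.rfl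

/-- the criterion for stability -/
lemma M3_stable {W : Submodule ℂ (Fin p → ℂ)} {B : Submodule ℂ (Fin q → ℂ)}
    {N : Submodule ℂ (Fin p → ℂ)}
    (h0a : ∀ X ∈ G.h0, ∀ u ∈ W, X.1 *ᵥ u ∈ W) (h0b : ∀ X ∈ G.h0, ∀ v ∈ B, X.2 *ᵥ v ∈ B)
    (h0c : ∀ X ∈ G.h0, ∀ w ∈ N, X.1ᵀ *ᵥ w ∈ N)
    (h1a : ∀ F ∈ G.h1, ∀ v ∈ B, F *ᵥ v ∈ W) (h1b : ∀ F ∈ G.h1, ∀ w ∈ N, Fᵀ *ᵥ w ∈ B)
    (h1c : ∀ F ∈ G.h1, ∀ u ∈ W, Fᴴ *ᵥ u ∈ B) (h1d : ∀ F ∈ G.h1, ∀ v ∈ B, Fᴴᵀ *ᵥ v ∈ N)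
    (h2a : ∀ Y ∈ G.h2, ∀ w ∈ N, Y *ᵥ w ∈ W) (h2b : ∀ Y ∈ G.h2, ∀ u ∈ W, Yᴴ *ᵥ u ∈ N) :
    ∀ y ∈ G.ops, ∀ m ∈ M3 W B N, y *ᵥ m ∈ M3 W B N := by
  intro y hy m hm
  obtain ⟨u, v, w, rfl⟩ := tri_surj m
  obtain ⟨hu, hv, hw⟩ := mem_M3.1 hm
  rcases hy with ⟨X, hX, rfl⟩ | ⟨F, hF, rfl | rfl⟩ | ⟨Y, hY, rfl | rfl⟩
  · rw [big0_eq, bl_tri, mem_M3]
    simp only [zero_mulVec, add_zero, zero_add, neg_mulVec]
    exact ⟨h0a X hX u hu, h0b X hX v hv, N.neg_mem (h0c X hX w hw)⟩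
  · rw [big1_eq, bl_tri, mem_M3]
    simp only [zero_mulVec, add_zero, zero_add, neg_mulVec]
    exact ⟨h1a F hF v hv, B.neg_mem (h1b F hF w hw), N.zero_mem⟩
  · rw [big1_eq, bl_ct, bl_tri, mem_M3]
    have e : (-Fᵀ)ᴴ = -Fᴴᵀ := by
      rw [conjTranspose_neg]
      rfl
    rw [e]
    simp only [conjTranspose_zero, zero_mulVec, add_zero, zero_add, neg_mulVec]
    exact ⟨W.zero_mem, h1c F hF u hu, N.neg_mem (h1d F hF v hv)⟩
  · rw [big2_eq, bl_tri, mem_M3]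
    simp only [zero_mulVec, add_zero, zero_add]
    exact ⟨h2a Y hY w hw, B.zero_mem, N.zero_mem⟩
  · rw [big2_eq, bl_ct, bl_tri, mem_M3]
    simp only [conjTranspose_zero, zero_mulVec, add_zero, zero_add]
    exact ⟨W.zero_mem, B.zero_mem, h2b Y hY u hu⟩

/-- a linear map sends a span into a submodule when it does so on the generators -/
lemma span_le_of {n m : ℕ} {S : Set (Fin n → ℂ)} {T : Submodule ℂ (Fin m → ℂ)}
    (A : Matrix (Fin m) (Fin n) ℂ) (h : ∀ s ∈ S, A *ᵥ s ∈ T) :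
    ∀ x ∈ Submodule.span ℂ S, A *ᵥ x ∈ T := by
  intro x hx
  induction hx using Submodule.span_induction with
  | mem x hx => exact h x hx
  | zero => rw [Matrix.mulVec_zero]; exact T.zero_mem
  | add x y _ _ hx hy => rw [Matrix.mulVec_add]; exact T.add_mem hx hy
  | smul c x _ hx => rw [Matrix.mulVec_smul]; exact T.smul_mem c hx

/-- the adjoint bracket of degree one -/
lemma br01 {X : Matrix (Fin p) (Fin p) ℂ × Matrix (Fin q) (Fin q) ℂ} (hX : X ∈ G.h0)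
    {F : Matrix (Fin p) (Fin q) ℂ} (hF : F ∈ G.h1) :
    ∃ F' ∈ G.h1, X.2 * Fᴴ = Fᴴ * X.1 - F'ᴴ ∧ X.1ᵀ * Fᴴᵀ = F'ᴴᵀ - Fᴴᵀ * X.2 := by
  have h1 := G.b01 _ (G.star0 X hX) F hF
  refine ⟨_, h1, ?_, ?_⟩
  · dsimp only
    rw [conjTranspose_sub, conjTranspose_mul, conjTranspose_mul, conjTranspose_conjTranspose,
      conjTranspose_conjTranspose]
    abel
  · dsimp only
    rw [conjTranspose_sub, conjTranspose_mul, conjTranspose_mul, conjTranspose_conjTranspose,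
      conjTranspose_conjTranspose, transpose_sub, transpose_mul, transpose_mul, G.skew0 X hX,
      Matrix.mul_neg]
    abel

/-- the adjoint bracket of degree two -/
lemma br02 {X : Matrix (Fin p) (Fin p) ℂ × Matrix (Fin q) (Fin q) ℂ} (hX : X ∈ G.h0)
    {Y : Matrix (Fin p) (Fin p) ℂ} (hY : Y ∈ G.h2) :
    ∃ Y' ∈ G.h2, X.1ᵀ * Yᴴ = Y'ᴴ - Yᴴ * X.1 := by
  have h1 := G.b02 _ (G.star0 X hX) Y hY
  refine ⟨_, h1, ?_⟩
  dsimp only
  have e : (X.1ᴴᵀ)ᴴ = X.1ᵀ := by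
    ext i j
    simp [conjTranspose_apply, transpose_apply]
  rw [conjTranspose_add, conjTranspose_mul, conjTranspose_mul, conjTranspose_conjTranspose, e]
  abel

theorem kerB (hp : 0 < p) (hG : G.Irr) : G.KerB := by
  let U : Submodule ℂ (Fin q → ℂ) :=
    { carrier := {u | ∀ F ∈ G.h1, F *ᵥ u = 0}
      zero_mem' := fun F _ => Matrix.mulVec_zero F
      add_mem' := fun {x y} hx hy F hF => by
        rw [Matrix.mulVec_add, hx F hF, hy F hF, add_zero]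
      smul_mem' := fun c x hx F hF => by rw [Matrix.mulVec_smul, hx F hF, smul_zero] }
  have hU : ∀ u, u ∈ U ↔ ∀ F ∈ G.h1, F *ᵥ u = 0 := fun u => Iff.rfl
  let N : Submodule ℂ (Fin p → ℂ) :=
    Submodule.span ℂ {w | ∃ F ∈ G.h1, ∃ u ∈ U, w = Fᴴᵀ *ᵥ u}
  have hN : ∀ F ∈ G.h1, ∀ u ∈ U, Fᴴᵀ *ᵥ u ∈ N := fun F hF u hu =>
    Submodule.subset_span ⟨F, hF, u, hu, rfl⟩
  have h0b : ∀ X ∈ G.h0, ∀ v ∈ U, X.2 *ᵥ v ∈ U := by
    intro X hX v hv F hF
    have h1 := hv _ (G.b01 X hX F hF)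
    rw [Matrix.sub_mulVec, ← Matrix.mulVec_mulVec, ← Matrix.mulVec_mulVec, hv F hF,
      Matrix.mulVec_zero, zero_sub, neg_eq_zero] at h1
    exact h1
  have hst := M3_stable (G := G) (W := ⊥) (B := U) (N := N)
    (by
      intro X hX u hu
      rw [Submodule.mem_bot] at hu ⊢
      rw [hu, Matrix.mulVec_zero])
    h0b
    (by
      intro X hX
      refine span_le_of _ ?_
      rintro _ ⟨F, hF, u, hu, rfl⟩
      obtain ⟨F', hF', -, e⟩ := br01 hX hF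
      rw [Matrix.mulVec_mulVec, e, Matrix.sub_mulVec, ← Matrix.mulVec_mulVec]
      exact N.sub_mem (hN F' hF' u hu) (hN F hF _ (h0b X hX u hu)))
    (by
      intro F hF v hv
      rw [Submodule.mem_bot]
      exact hv F hF)
    (by
      intro F hF
      refine span_le_of _ ?_
      rintro _ ⟨F', hF', u, hu, rfl⟩
      have h1 := h0b _ (G.b1s F hF F' hF') u hu
      dsimp only at h1
      rw [Matrix.sub_mulVec, ← Matrix.mulVec_mulVec u F'ᴴ F, hu F hF, Matrix.mulVec_zero, sub_zero,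
        transpose_mul] at h1
      rw [Matrix.mulVec_mulVec]
      exact h1)
    (by
      intro F hF u hu
      rw [Submodule.mem_bot] at hu
      rw [hu, Matrix.mulVec_zero]
      exact U.zero_mem)
    (fun F hF v hv => hN F hF v hv)
    (by
      intro Y hY
      refine span_le_of _ ?_
      rintro _ ⟨F, hF, u, hu, rfl⟩
      rw [Matrix.mulVec_mulVec, Submodule.mem_bot]
      exact hu _ (G.b2s Y hY F hF))
    (by
      intro Y hY u hu
      rw [Submodule.mem_bot] at hu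
      rw [hu, Matrix.mulVec_zero]
      exact N.zero_mem)
  intro u hu
  rcases stable_triv hG _ hst with h | h
  · have h1 : tri (0 : Fin p → ℂ) u 0 ∈ M3 (⊥ : Submodule ℂ (Fin p → ℂ)) U N :=
      mem_M3.2 ⟨Submodule.zero_mem _, hu, Submodule.zero_mem _⟩
    rw [h, Submodule.mem_bot] at h1
    funext i
    exact congrFun h1 (Sum.inr (Sum.inl i))
  · exfalso
    have h1 : tri (1 : Fin p → ℂ) (0 : Fin q → ℂ) 0 ∈
        M3 (⊥ : Submodule ℂ (Fin p → ℂ)) U N := by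
      rw [h]
      trivial
    have h2 := (mem_M3.1 h1).1
    rw [Submodule.mem_bot] at h2
    have h3 := congrFun h2 ⟨0, hp⟩
    simp at h3

theorem irrA (hG : G.Irr) : G.IrrA := by
  intro W hW
  let B : Submodule ℂ (Fin q → ℂ) := Submodule.span ℂ {v | ∃ F ∈ G.h1, ∃ u ∈ W, v = Fᴴ *ᵥ u}
  let N : Submodule ℂ (Fin p → ℂ) := Submodule.span ℂ
    ({w | ∃ F ∈ G.h1, ∃ v ∈ B, w = Fᴴᵀ *ᵥ v} ∪ {w | ∃ Y ∈ G.h2, ∃ u ∈ W, w = Yᴴ *ᵥ u})
  have hB : ∀ F ∈ G.h1, ∀ u ∈ W, Fᴴ *ᵥ u ∈ B := fun F hF u hu =>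
    Submodule.subset_span ⟨F, hF, u, hu, rfl⟩
  have hN1 : ∀ F ∈ G.h1, ∀ v ∈ B, Fᴴᵀ *ᵥ v ∈ N := fun F hF v hv =>
    Submodule.subset_span (Or.inl ⟨F, hF, v, hv, rfl⟩)
  have hN2 : ∀ Y ∈ G.h2, ∀ u ∈ W, Yᴴ *ᵥ u ∈ N := fun Y hY u hu =>
    Submodule.subset_span (Or.inr ⟨Y, hY, u, hu, rfl⟩)
  have h0b : ∀ X ∈ G.h0, ∀ v ∈ B, X.2 *ᵥ v ∈ B := by
    intro X hX
    refine span_le_of _ ?_
    rintro _ ⟨F, hF, u, hu, rfl⟩
    obtain ⟨F', hF', e, -⟩ := br01 hX hF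
    rw [Matrix.mulVec_mulVec, e, Matrix.sub_mulVec, ← Matrix.mulVec_mulVec]
    exact B.sub_mem (hB F hF _ (hW X hX u hu)) (hB F' hF' u hu)
  have h1a : ∀ F ∈ G.h1, ∀ v ∈ B, F *ᵥ v ∈ W := by
    intro F hF
    refine span_le_of _ ?_
    rintro _ ⟨F', hF', u, hu, rfl⟩
    rw [Matrix.mulVec_mulVec]
    exact hW _ (G.b1s F hF F' hF') u hu
  have h0c : ∀ X ∈ G.h0, ∀ w ∈ N, X.1ᵀ *ᵥ w ∈ N := by
    intro X hX
    refine span_le_of _ ?_
    rintro _ (⟨F, hF, v, hv, rfl⟩ | ⟨Y, hY, u, hu, rfl⟩)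
    · obtain ⟨F', hF', -, e⟩ := br01 hX hF
      rw [Matrix.mulVec_mulVec, e, Matrix.sub_mulVec, ← Matrix.mulVec_mulVec]
      exact N.sub_mem (hN1 F' hF' v hv) (hN1 F hF _ (h0b X hX v hv))
    · obtain ⟨Y', hY', e⟩ := br02 hX hY
      rw [Matrix.mulVec_mulVec, e, Matrix.sub_mulVec, ← Matrix.mulVec_mulVec]
      exact N.sub_mem (hN2 Y' hY' u hu) (hN2 Y hY _ (hW X hX u hu))
  have h1b : ∀ F ∈ G.h1, ∀ w ∈ N, Fᵀ *ᵥ w ∈ B := by
    intro F hF
    refine span_le_of _ ?_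
    rintro _ (⟨F', hF', v, hv, rfl⟩ | ⟨Y, hY, u, hu, rfl⟩)
    · have h1 := h0b _ (G.b1s F hF F' hF') v hv
      dsimp only at h1
      rw [Matrix.sub_mulVec, transpose_mul, ← Matrix.mulVec_mulVec v F'ᴴ F] at h1
      rw [Matrix.mulVec_mulVec]
      have h2 := B.add_mem h1 (hB F' hF' _ (h1a F hF v hv))
      rwa [sub_add_cancel] at h2
    · have h1 := hB _ (G.b2s Y hY F hF) u hu
      have e : (Y * Fᴴᵀ)ᴴ = Fᵀ * Yᴴ := by
        rw [conjTranspose_mul]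
        congr 1
        ext i j
        simp [conjTranspose_apply, transpose_apply]
      rw [e] at h1
      rw [Matrix.mulVec_mulVec]
      exact h1
  have h2a : ∀ Y ∈ G.h2, ∀ w ∈ N, Y *ᵥ w ∈ W := by
    intro Y hY
    refine span_le_of _ ?_
    rintro _ (⟨F, hF, v, hv, rfl⟩ | ⟨Y', hY', u, hu, rfl⟩)
    · rw [Matrix.mulVec_mulVec]
      exact h1a _ (G.b2s Y hY F hF) v hv
    · rw [Matrix.mulVec_mulVec]
      exact hW _ (G.b22 Y hY Y' hY') u hu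
  have hst := M3_stable (G := G) hW h0b h0c h1a h1b hB hN1 h2a hN2
  rcases stable_triv hG _ hst with h | h
  · left
    rw [Submodule.eq_bot_iff]
    intro u hu
    have h1 : tri u (0 : Fin q → ℂ) 0 ∈ M3 W B N :=
      mem_M3.2 ⟨hu, Submodule.zero_mem _, Submodule.zero_mem _⟩
    rw [h, Submodule.mem_bot] at h1
    funext i
    exact congrFun h1 (Sum.inl i)
  · right
    rw [eq_top_iff]
    intro u _
    have h1 : tri u (0 : Fin q → ℂ) 0 ∈ M3 W B N := by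
      rw [h]
      trivial
    exact (mem_M3.1 h1).1

theorem irr : S_irr := fun _ _ _ hp hG => ⟨irrA hG, kerB hp hG⟩

end

end Pool.Agent.W216.PG
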